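import Pool.Agent.H16.FK.TargetsA

/-!
# Board `hci_modules`, row AST: Theorem A* at the level of arrays
-/

set_option autoImplicit false

namespace Pool.Agent.H18.FK

open Set Pool.Agent.H75.HCI Pool.Agent.H16.FK

theorem pf_AST (hRA5 : T_RA5) (hAT : T_AT) (hSFA : T_SFA) (hLKI : T_LKI) : T_AST := by
  classical
  intro kx k L T hT hk hC hS hLk
  obtain ⟨cl, In, hIn, hSP⟩ := hRA5 kx k L T hT hk hC hLk
  have h1 := hAT kx k L T cl In hk hT.pat hT.ft (hSFA kx k L T hT hS) hIn hSP 0 0 1 (by norm_num)
  obtain ⟨c, ⟨y0, y1, hy⟩, hc⟩ := hS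
  have hB : Blw 1 (hubA 0 : List (Idx kx k)) := by
    intro p hp
    unfold hubA hub at hp
    rw [List.mem_map] at hp
    obtain ⟨x, -, rfl⟩ := hp
    norm_num
  have h2 := hc 1 _ hB
  rw [h2] at h1
  have h3 := (hLKI kx k L T hT).1 (hubA 0) (hubA 0) (row 0 0) (srow 1 c) rfl (by
    unfold row prt srow
    rw [List.length_map, List.length_map]) h1 hLk
  -- the parts of the row
  obtain ⟨a, ha⟩ : ∃ a, a = (List.finRange k).filter (fun y => decide (c y = c y0)) := ⟨_, rfl⟩
  obtain ⟨a', ha'⟩ : ∃ a', a' = (List.finRange k).filter (fun y => !decide (c y = c y0)) := ⟨_, rfl⟩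
  have hy0 : y0 ∈ a := by rw [ha]; simp
  have hy1 : y1 ∈ a' := by rw [ha']; simpa using fun h => hy h.symm
  have hav : (a.map fun y => ((1, .inr (c y, y)) : Idx kx k)) = prt 1 (c y0) a := by
    unfold prt
    refine List.map_congr_left fun y hy => ?_
    rw [ha, List.mem_filter, decide_eq_true_eq] at hy
    rw [hy.2]
  have hlt : a.length < k := by
    have h4 : a.length < (List.finRange k).length := by
      rw [ha, List.length_filter_lt_length_iff_exists]
      exact ⟨y1, List.mem_finRange _, by simpa using fun h => hy h.symm⟩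
    rwa [List.length_finRange] at h4
  have hnd : a.Nodup := by rw [ha]; exact (List.nodup_finRange k).filter _
  refine h3 (a'.map fun y => ((1, .inr (c y, y)) : Idx kx k)) (prt 1 (c y0) a) ?_ ?_ ?_ ?_
  · intro h
    rw [List.map_eq_nil_iff] at h
    rw [h] at hy1
    exact (List.not_mem_nil hy1).elim
  · intro h
    unfold prt at h
    rw [List.map_eq_nil_iff] at h
    rw [h] at hy0
    exact (List.not_mem_nil hy0).elim
  · rw [← hav, ← List.map_append]
    unfold srow
    refine List.Perm.map _ (List.perm_append_comm.trans ?_)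
    rw [ha, ha']
    exact List.filter_append_perm _ _
  · refine ⟨?_, a, 1, c y0, hnd, ?_, hlt, ?_, rfl⟩
    · intro h
      unfold prt at h
      rw [List.map_eq_nil_iff] at h
      rw [h] at hy0
      exact (List.not_mem_nil hy0).elim
    · unfold prt
      rw [List.length_map]
    · intro y h
      rw [List.mem_append] at h
      rcases h with h | h
      · exact absurd (hB _ h) (by norm_num)
      · rw [List.mem_map] at h
        obtain ⟨z, hz, hz'⟩ := h
        have h5 : c z = c y0 := by
          have h6 := congrArg Prod.snd hz'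
          have h7 := Sum.inr.inj h6
          exact congrArg Prod.fst h7
        rw [ha', List.mem_filter] at hz
        simp [h5] at hz

end Pool.Agent.H18.FK
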